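import Pool.Agent.Q264.CB.Fin
import Pool.Agent.Q123.CB.SUPP
import Pool.Agent.Q123.CB.TOP
import Pool.Agent.Q153.CB.ARR
import Pool.Agent.Q153.CB.CNT
import Pool.Agent.Q153.CB.TWIST
import Pool.Agent.Q182.CB.Sub
import Pool.Agent.Q164.CB.NOT

/-!
# Combinatorial types of arrangements of convex bodies are not locally determined (MP_f9fe38_co, Q1: no)

For every `t ≥ 4` and every `m` there are two arrangements `A`, `B` of `n > m` planar convex bodies (ellipses), every two
of which have at most `t` common supporting tangents, such that for every proper subset `S` of the index set the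
sub-arrangements on `S` have the same combinatorial type, while no self-homeomorphism of the cylinder that preserves
`+∞` (whether it preserves the orientation or not) carries the support curves of `A` to those of `B`.

The bodies are a disc, `2 l` centrally symmetric ellipses and a large disc; only the support curves of consecutive
bodies cross. The large disc has centre `(0, -1)` in `A` and `(0, 1)` in `B`. Without one of the bodies the part of the
chain above it can be rotated by `π` against the part below it; with all bodies this is impossible, as the image of the
half line over the direction `(0, 1)` would have to pass from directions with positive to directions with negative second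
coordinate without meeting a direction with second coordinate `0`.
-/

namespace Pool.Agent.Results.MP_f9fe38_co.EllipseChain

open Pool.Agent.Q264.CB

theorem result : ∀ t m : ℕ, 4 ≤ t →
    ∃ (n : ℕ) (A B : Fin n → Set ℂ), m < n ∧ IsArrangement t A ∧ IsArrangement t B ∧
      (∀ S : Set (Fin n), S ≠ Set.univ → SameType S A B) ∧
      ¬ ∃ φ : (Circle × ℝ) ≃ₜ (Circle × ℝ), Carries φ Set.univ A B :=
  main (Pool.Agent.Q153.CB.t_ARR Pool.Agent.Q123.CB.t_SUPP Pool.Agent.Q153.CB.t_CNT)
    (Pool.Agent.Q182.CB.t_SUB Pool.Agent.Q123.CB.t_SUPP Pool.Agent.Q153.CB.t_TWIST)
    (Pool.Agent.Q164.CB.t_NOT Pool.Agent.Q123.CB.t_SUPP Pool.Agent.Q123.CB.t_TOP)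

end Pool.Agent.Results.MP_f9fe38_co.EllipseChain
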